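import Mathlib

/-!
# `PH_n^+` is not a quantum permutation group

The diagonal matrices `u_ij = δ_ij g_i`, `g_i² = 1`, give a quotient map from `𝒪(H_n^+)` to the group
algebra of `ℤ₂ * ... * ℤ₂`; under it `𝒪(PH_n^+)` is sent onto the group algebra of the subgroup of
words of even length, which is a free group on `n - 1` letters. A further quotient map sends
`𝒪(PH_n^+)` onto the algebra of Laurent polynomials, an integral domain, whose only idempotents are
`0` and `1`. As `𝒪(S_N^+)` is generated by idempotents, it has no surjective homomorphism to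
`𝒪(PH_n^+)`.

All `*`-algebras of the problem are given by self-adjoint generators and by a set of relations which
is stable under `*`. So as unital algebras they are the quotients of the free algebra by these
relations. A homomorphism of Hopf `*`-algebras is in particular a homomorphism of unital algebras.
-/

set_option autoImplicit false

open scoped BigOperators

namespace Pool.Agent.Results.MP_8a5df5_al.NotQuantumPermutation

/-- The free unital algebra on the symbols `u_ij`, `i, j ∈ V`. -/
abbrev Fr (V : Type) : Type := FreeAlgebra ℂ (V × V)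

/-- The symbol `u_ij`. -/
def x {V : Type} (i j : V) : Fr V := FreeAlgebra.ι ℂ (i, j)

/-- The defining relations of `𝒪(S_V^+)`: the `u_ij` are idempotents, and the entries of every row
and of every column sum up to `1`. -/
inductive RelS (V : Type) [Fintype V] : Fr V → Fr V → Prop
  | idem (i j : V) : RelS V (x i j * x i j) (x i j)
  | row (i : V) : RelS V (∑ k, x i k) 1
  | col (j : V) : RelS V (∑ k, x k j) 1

/-- The defining relations of `𝒪(G^+(X))`: those of `𝒪(S_V^+)` and `u A = A u` for the adjacency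
matrix `A` of the graph `X`. -/
inductive RelG {V : Type} [Fintype V] (X : SimpleGraph V) [DecidableRel X.Adj] : Fr V → Fr V → Prop
  | idem (i j : V) : RelG X (x i j * x i j) (x i j)
  | row (i : V) : RelG X (∑ k, x i k) 1
  | col (j : V) : RelG X (∑ k, x k j) 1
  | comm (i j : V) : RelG X (∑ k, if X.Adj k j then x i k else 0) (∑ k, if X.Adj i k then x k j else 0)

/-- The defining relations of `𝒪(H_n^+)`: `u` is orthogonal and cubic. -/
inductive RelH (n : ℕ) : Fr (Fin n) → Fr (Fin n) → Prop
  | orthRow (i j : Fin n) : RelH n (∑ k, x i k * x j k) (if i = j then 1 else 0)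
  | orthCol (i j : Fin n) : RelH n (∑ k, x k i * x k j) (if i = j then 1 else 0)
  | cubicRow (i j k : Fin n) (h : j ≠ k) : RelH n (x i j * x i k) 0
  | cubicCol (i j k : Fin n) (h : j ≠ k) : RelH n (x j i * x k i) 0

/-- `𝒪(S_V^+)` -/
abbrev OS (V : Type) [Fintype V] : Type := RingQuot (RelS V)

/-- `𝒪(G^+(X))` -/
abbrev OG {V : Type} [Fintype V] (X : SimpleGraph V) [DecidableRel X.Adj] : Type := RingQuot (RelG X)

/-- `𝒪(H_n^+)` -/
abbrev OH (n : ℕ) : Type := RingQuot (RelH n)

/-- The generator `u_ij` of `𝒪(H_n^+)`. -/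
def u {n : ℕ} (i j : Fin n) : OH n := RingQuot.mkAlgHom ℂ (RelH n) (x i j)

/-- `𝒪(PH_n^+)`: the subalgebra of `𝒪(H_n^+)` generated by all products `u_ij u_kl`. -/
def OPH (n : ℕ) : Subalgebra ℂ (OH n) :=
  Algebra.adjoin ℂ {a | ∃ i j k l : Fin n, a = u i j * u k l}

/-- the field of rational functions -/
abbrev K : Type := FractionRing (Polynomial ℂ)

/-- the variable -/
noncomputable def t : K := algebraMap (Polynomial ℂ) K Polynomial.X

theorem t_ne : t ≠ 0 := by
  unfold t
  rw [Ne, map_eq_zero_iff _ (IsFractionRing.injective (Polynomial ℂ) K)]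
  exact Polynomial.X_ne_zero

theorem t_not_const (c : ℂ) : t ≠ algebraMap ℂ K c := by
  intro h
  rw [IsScalarTower.algebraMap_apply ℂ (Polynomial ℂ) K] at h
  have h1 := IsFractionRing.injective (Polynomial ℂ) K h
  have h2 := congrArg (fun p : Polynomial ℂ => p.coeff 1) h1
  simp at h2

/-- `2 × 2` matrices -/
abbrev M : Type := Matrix (Fin 2) (Fin 2) K

/-- first involution -/
noncomputable def ga : M := !![0, t; t⁻¹, 0]

/-- second involution -/
noncomputable def gb : M := !![0, 1; 1, 0]

theorem ga_sq : ga * ga = 1 := by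
  have := t_ne
  ext i j
  fin_cases i <;> fin_cases j <;> simp [ga, Matrix.mul_apply, Fin.sum_univ_two, this]

theorem gb_sq : gb * gb = 1 := by
  ext i j
  fin_cases i <;> fin_cases j <;> simp [gb, Matrix.mul_apply, Fin.sum_univ_two]

/-- the images of the `u_ii` -/
noncomputable def g {n : ℕ} (i : Fin n) : M := if (i : ℕ) = 0 then ga else gb

theorem g_sq {n : ℕ} (i : Fin n) : g i * g i = 1 := by
  unfold g
  split_ifs
  · exact ga_sq
  · exact gb_sq

/-- the images of the `u_ij` -/
noncomputable def gen (n : ℕ) (p : Fin n × Fin n) : M := if p.1 = p.2 then g p.1 else 0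

theorem gen_rel (n : ℕ) : ∀ ⦃a b : Fr (Fin n)⦄, RelH n a b →
    FreeAlgebra.lift ℂ (gen n) a = FreeAlgebra.lift ℂ (gen n) b := by
  intro a b h
  induction h with
  | orthRow i j =>
    simp only [x, map_sum, map_mul, FreeAlgebra.lift_ι_apply, gen]
    by_cases hij : i = j
    · subst hij
      simp [g_sq]
    · simp [hij]
  | orthCol i j =>
    simp only [x, map_sum, map_mul, FreeAlgebra.lift_ι_apply, gen]
    by_cases hij : i = j
    · subst hij
      simp [g_sq]
    · simp [hij]
      intro h
      exact absurd h.symm hij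
  | cubicRow i j k h =>
    simp only [x, map_mul, FreeAlgebra.lift_ι_apply, gen, map_zero]
    by_cases h1 : i = j
    · subst h1
      simp [h]
    · simp [h1]
  | cubicCol i j k h =>
    simp only [x, map_mul, FreeAlgebra.lift_ι_apply, gen, map_zero]
    by_cases h1 : j = i
    · subst h1
      simp [Ne.symm h]
    · simp [h1]

/-- the homomorphism `𝒪(H_n^+) → M₂` -/
noncomputable def rep (n : ℕ) : OH n →ₐ[ℂ] M :=
  RingQuot.liftAlgHom ℂ ⟨FreeAlgebra.lift ℂ (gen n), gen_rel n⟩

theorem rep_u (n : ℕ) (i j : Fin n) : rep n (u i j) = gen n (i, j) := by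
  unfold rep u
  rw [RingQuot.liftAlgHom_mkAlgHom_apply]
  simp [x]

/-- the diagonal matrices -/
def Dg : Subalgebra ℂ M where
  carrier := {m | m 0 1 = 0 ∧ m 1 0 = 0}
  mul_mem' := by
    rintro a b ⟨h1, h2⟩ ⟨h3, h4⟩
    constructor <;> simp [Matrix.mul_apply, Fin.sum_univ_two, h1, h2, h3, h4]
  add_mem' := by
    rintro a b ⟨h1, h2⟩ ⟨h3, h4⟩
    constructor <;> simp [h1, h2, h3, h4]
  algebraMap_mem' := by
    intro r
    constructor <;> simp [Matrix.algebraMap_matrix_apply]

theorem gen_mul_mem (n : ℕ) (i j k l : Fin n) : gen n (i, j) * gen n (k, l) ∈ Dg := by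
  unfold gen
  simp only
  split_ifs
  · unfold g
    split_ifs <;> constructor <;> simp [ga, gb, Matrix.mul_apply, Fin.sum_univ_two]
  all_goals simp [Dg.zero_mem]

theorem rep_mem (n : ℕ) (a : OH n) (ha : a ∈ OPH n) : rep n a ∈ Dg := by
  have h : OPH n ≤ Dg.comap (rep n) := by
    unfold OPH
    rw [Algebra.adjoin_le_iff]
    rintro _ ⟨i, j, k, l, rfl⟩
    show rep n (u i j * u k l) ∈ Dg
    rw [map_mul, rep_u, rep_u]
    exact gen_mul_mem n i j k l
  exact h ha

/-- the homomorphism `𝒪(PH_n^+) → K` -/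
noncomputable def chi (n : ℕ) : OPH n →ₐ[ℂ] K where
  toFun a := rep n a.1 0 0
  map_one' := by simp
  map_mul' := by
    rintro ⟨a, ha⟩ ⟨b, hb⟩
    have h1 := rep_mem n a ha
    have h2 : (rep n a) 0 1 = 0 := h1.1
    simp [Matrix.mul_apply, Fin.sum_univ_two, h2]
  map_zero' := by simp
  map_add' := by
    rintro ⟨a, ha⟩ ⟨b, hb⟩
    simp
  commutes' := by
    intro r
    simp [Matrix.algebraMap_matrix_apply]

theorem not_generated {n : ℕ} (hn : 2 ≤ n) {V : Type} (R : Fr V → Fr V → Prop)
    (hR : ∀ i j, R (x i j * x i j) (x i j)) (f : RingQuot R →ₐ[ℂ] OPH n) :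
    ¬ Function.Surjective f := by
  intro hf
  set F : Fr V →ₐ[ℂ] K := ((chi n).comp f).comp (RingQuot.mkAlgHom ℂ R) with hF
  -- the images of the generators are constants
  have hgen : ∀ p : V × V, ∃ c : ℂ, F (FreeAlgebra.ι ℂ p) = algebraMap ℂ K c := by
    rintro ⟨i, j⟩
    have h1 : F (x i j) * F (x i j) = F (x i j) := by
      rw [← map_mul, hF]
      simp only [AlgHom.comp_apply]
      rw [RingQuot.mkAlgHom_rel ℂ (hR i j)]
    have h2 : F (x i j) = 0 ∨ F (x i j) = 1 := by
      have h3 : F (x i j) * (F (x i j) - 1) = 0 := by rw [mul_sub, h1]; simp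
      rcases mul_eq_zero.1 h3 with h | h
      · exact Or.inl h
      · exact Or.inr (sub_eq_zero.1 h)
    rcases h2 with h | h
    · exact ⟨0, by rw [map_zero]; exact h⟩
    · exact ⟨1, by rw [map_one]; exact h⟩
  have hconst : ∀ a : Fr V, ∃ c : ℂ, F a = algebraMap ℂ K c := by
    intro a
    induction a using FreeAlgebra.induction with
    | grade0 r => exact ⟨r, by simp⟩
    | grade1 p => exact hgen p
    | mul a b ha hb =>
      obtain ⟨c, hc⟩ := ha
      obtain ⟨d, hd⟩ := hb
      exact ⟨c * d, by rw [map_mul, hc, hd, map_mul]⟩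
    | add a b ha hb =>
      obtain ⟨c, hc⟩ := ha
      obtain ⟨d, hd⟩ := hb
      exact ⟨c + d, by rw [map_add, hc, hd, map_add]⟩
  -- the element `u₁₁ u₂₂`
  let i0 : Fin n := ⟨0, by omega⟩
  let i1 : Fin n := ⟨1, by omega⟩
  let w : OPH n := ⟨u i0 i0 * u i1 i1, Algebra.subset_adjoin ⟨i0, i0, i1, i1, rfl⟩⟩
  obtain ⟨b, hb⟩ := hf w
  obtain ⟨a, ha⟩ := RingQuot.mkAlgHom_surjective ℂ R b
  obtain ⟨c, hc⟩ := hconst a
  have h1 : F a = chi n w := by
    rw [hF]
    simp only [AlgHom.comp_apply]
    rw [ha, hb]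
  have h2 : chi n w = t := by
    show rep n (u i0 i0 * u i1 i1) 0 0 = t
    rw [map_mul, rep_u, rep_u]
    simp [gen, g, i0, i1, ga, gb, Matrix.mul_apply, Fin.sum_univ_two]
  exact t_not_const c (by rw [← h2, ← h1, hc])

/-- **Negative answers to Q2 and Q1.** For `n ≥ 2` and every finite set `V` there is no surjective
homomorphism of unital algebras `𝒪(S_V^+) → 𝒪(PH_n^+)`, and for every finite simple graph `X` there
is no surjective homomorphism of unital algebras `𝒪(G^+(X)) → 𝒪(PH_n^+)`. In particular there is no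
surjective homomorphism, and no isomorphism, of Hopf `*`-algebras. -/
theorem result (n : ℕ) (hn : 2 ≤ n) :
    (∀ (V : Type) [Fintype V] (f : OS V →ₐ[ℂ] OPH n), ¬ Function.Surjective f) ∧
    (∀ (V : Type) [Fintype V] (X : SimpleGraph V) [DecidableRel X.Adj] (f : OG X →ₐ[ℂ] OPH n),
      ¬ Function.Surjective f) :=
  ⟨fun V _ f => not_generated hn (RelS V) RelS.idem f,
    fun _ _ X _ f => not_generated hn (RelG X) RelG.idem f⟩

end Pool.Agent.Results.MP_8a5df5_al.NotQuantumPermutation
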